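import Pool.Agent.W792.WA.Stm
import Pool.Agent.W918.LL.Opr
import Pool.Agent.H792R3.SpecMeas
import Pool.Agent.W792.LL.Dia

/-! WA-SPM: the spectral measure at the origin for a bounded potential. -/

set_option autoImplicit false

open MeasureTheory Pool.Agent.W792.LL Pool.Agent.W792.WA
open scoped ComplexConjugate

namespace Pool.Agent.W605.WA.SPM

noncomputable section

section gen

variable {Γ : Type} [DecidableEq Γ]

theorem inner_sg (x : Γ) (f : l2 Γ) : inner ℂ (lp.single 2 x (1 : ℂ) : l2 Γ) f = f x := by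
  rw [lp.inner_single_left]
  simp

theorem sg_smul (x : Γ) (c : ℂ) : (lp.single 2 x c : l2 Γ) = c • lp.single 2 x (1 : ℂ) := by
  rw [← lp.single_smul]
  simp

theorem ext_sg {A B : l2 Γ →L[ℂ] l2 Γ}
    (h : ∀ y, A (lp.single 2 y (1 : ℂ)) = B (lp.single 2 y (1 : ℂ))) : A = B := by
  refine ContinuousLinearMap.ext fun u => ?_
  have h1 := (lp.hasSum_single (p := 2) (by norm_num) u).mapL A
  have h2 := (lp.hasSum_single (p := 2) (by norm_num) u).mapL B
  have h3 : (fun i => A (lp.single 2 i (u i))) = fun i => B (lp.single 2 i (u i)) := by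
    funext i
    rw [sg_smul, map_smul, map_smul, h]
  rw [h3] at h1
  exact h1.unique h2

theorem sa_of_kernel (A : l2 Γ →L[ℂ] l2 Γ)
    (h : ∀ x y, (A (lp.single 2 y (1 : ℂ))) x = conj ((A (lp.single 2 x (1 : ℂ))) y)) :
    IsSelfAdjoint A := by
  rw [ContinuousLinearMap.isSelfAdjoint_iff']
  apply ext_sg
  intro y
  refine lp.ext (funext fun x => ?_)
  rw [← inner_sg x, ContinuousLinearMap.adjoint_inner_right, ← inner_conj_symm, inner_sg, h x y]

end gen

theorem conj_coeff {d : ℕ} (K : C(UnitAddTorus (Fin d), ℝ)) (n : Fin d → ℤ) :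
    conj (hopK K n) = hopK K (-n) := by
  unfold hopK UnitAddTorus.mFourierCoeff
  rw [← integral_conj]
  refine integral_congr_ae (Filter.Eventually.of_forall fun t => ?_)
  simp only [smul_eq_mul, map_mul, Complex.conj_ofReal, neg_neg]
  rw [UnitAddTorus.mFourier_neg]
  simp

/-- resolvent -/
theorem resolvent {X : Type} [NormedAddCommGroup X] [InnerProductSpace ℂ X] [CompleteSpace X]
    (H : X →L[ℂ] X) (hH : IsSelfAdjoint H) (z : ℂ) (hz : 0 < z.im) :
    ∃ A : X →L[ℂ] X, (H - z • 1) * A = 1 ∧ A * (H - z • 1) = 1 ∧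
      A = cfc (fun E : ℝ => ((1 : ℂ) / ((E : ℂ) - z)).re) H
        + Complex.I • cfc (fun E : ℝ => ((1 : ℂ) / ((E : ℂ) - z)).im) H ∧
      Continuous (fun E : ℝ => ((1 : ℂ) / ((E : ℂ) - z)).re) ∧
      Continuous (fun E : ℝ => ((1 : ℂ) / ((E : ℂ) - z)).im) := by
  have hne : ∀ E : ℝ, (E : ℂ) - z ≠ 0 := by
    intro E h
    have := congrArg Complex.im h
    simp at this
    linarith
  have hcont : Continuous (fun E : ℝ => (1 : ℂ) / ((E : ℂ) - z)) :=
    continuous_const.div (Complex.continuous_ofReal.sub continuous_const) hne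
  obtain ⟨r, hr⟩ : ∃ r : ℝ → ℝ, r = fun E : ℝ => ((1 : ℂ) / ((E : ℂ) - z)).re := ⟨_, rfl⟩
  obtain ⟨q, hq⟩ : ∃ q : ℝ → ℝ, q = fun E : ℝ => ((1 : ℂ) / ((E : ℂ) - z)).im := ⟨_, rfl⟩
  have hrc : Continuous r := by rw [hr]; exact Complex.continuous_re.comp hcont
  have hqc : Continuous q := by rw [hq]; exact Complex.continuous_im.comp hcont
  rw [← hr, ← hq]
  have hrel : ∀ E : ℝ, E * r E = 1 + z.re * r E - z.im * q E ∧ E * q E = z.re * q E + z.im * r E := by
    intro E
    have h1 : ((E : ℂ) - z) * ((1 : ℂ) / ((E : ℂ) - z)) = 1 := by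
      rw [mul_one_div, div_self (hne E)]
    have h2 := congrArg Complex.re h1
    have h3 := congrArg Complex.im h1
    rw [Complex.mul_re] at h2
    rw [Complex.mul_im] at h3
    simp only [Complex.sub_re, Complex.ofReal_re, Complex.sub_im, Complex.ofReal_im,
      Complex.one_re, Complex.one_im] at h2 h3
    have h4 : r E = ((1 : ℂ) / ((E : ℂ) - z)).re := by rw [hr]
    have h5 : q E = ((1 : ℂ) / ((E : ℂ) - z)).im := by rw [hq]
    rw [← h4, ← h5] at h2 h3
    constructor <;> linarith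
  have hid : cfc (fun x : ℝ => x) H = H := cfc_id' ℝ H
  have e1 : cfc (fun x : ℝ => x * r x) H = 1 + (z.re : ℂ) • cfc r H - (z.im : ℂ) • cfc q H := by
    have h1 : (fun x : ℝ => x * r x) = fun x => (1 + z.re * r x) - z.im * q x :=
      funext fun x => (hrel x).1
    rw [h1, cfc_sub (fun x => 1 + z.re * r x) (fun x => z.im * q x) H (by fun_prop) (by fun_prop),
      cfc_add H (fun _ => (1 : ℝ)) (fun x => z.re * r x) (by fun_prop) (by fun_prop),
      cfc_const_mul z.re r H (by fun_prop), cfc_const_mul z.im q H (by fun_prop),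
      cfc_const_one ℝ H]
    rfl
  have e2 : cfc (fun x : ℝ => x * q x) H = (z.re : ℂ) • cfc q H + (z.im : ℂ) • cfc r H := by
    have h1 : (fun x : ℝ => x * q x) = fun x => z.re * q x + z.im * r x :=
      funext fun x => (hrel x).2
    rw [h1, cfc_add H (fun x => z.re * q x) (fun x => z.im * r x) (by fun_prop) (by fun_prop),
      cfc_const_mul z.re q H (by fun_prop), cfc_const_mul z.im r H (by fun_prop)]
    rfl
  have m1 : H * cfc r H = cfc (fun x : ℝ => x * r x) H := by
    rw [cfc_mul (fun x : ℝ => x) r H (by fun_prop) (by fun_prop), hid]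
  have m2 : H * cfc q H = cfc (fun x : ℝ => x * q x) H := by
    rw [cfc_mul (fun x : ℝ => x) q H (by fun_prop) (by fun_prop), hid]
  have m3 : cfc r H * H = cfc (fun x : ℝ => x * r x) H := by
    have : (fun x : ℝ => x * r x) = fun x => r x * x := funext fun x => mul_comm _ _
    rw [this, cfc_mul r (fun x : ℝ => x) H (by fun_prop) (by fun_prop), hid]
  have m4 : cfc q H * H = cfc (fun x : ℝ => x * q x) H := by
    have : (fun x : ℝ => x * q x) = fun x => q x * x := funext fun x => mul_comm _ _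
    rw [this, cfc_mul q (fun x : ℝ => x) H (by fun_prop) (by fun_prop), hid]
  have hzz : z = (z.re : ℂ) + z.im * Complex.I := (Complex.re_add_im z).symm
  refine ⟨cfc r H + Complex.I • cfc q H, ?_, ?_, rfl, hrc, hqc⟩
  · rw [sub_mul, mul_add, mul_smul_comm, m1, m2, e1, e2, smul_mul_assoc, one_mul]
    generalize cfc r H = R
    generalize cfc q H = Q
    generalize z.re = x at hzz ⊢
    generalize z.im = y at hzz ⊢
    rw [hzz]
    match_scalars
    · linear_combination (0 : ℂ) * Complex.I_sq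
    · linear_combination (0 : ℂ) * Complex.I_sq
    · linear_combination (-(y : ℂ)) * Complex.I_sq
  · rw [mul_sub, add_mul, smul_mul_assoc, m3, m4, e1, e2, mul_smul_comm, mul_one]
    generalize cfc r H = R
    generalize cfc q H = Q
    generalize z.re = x at hzz ⊢
    generalize z.im = y at hzz ⊢
    rw [hzz]
    match_scalars
    · linear_combination (0 : ℂ) * Complex.I_sq
    · linear_combination (0 : ℂ) * Complex.I_sq
    · linear_combination (-(y : ℂ)) * Complex.I_sq

theorem main : S_SPM := by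
  intro d K v C hC
  obtain ⟨mK, hmK⟩ : ∃ mK : C(UnitAddTorus (Fin d), ℂ),
      mK = ⟨fun k => (K k : ℂ), Complex.continuous_ofReal.comp K.continuous⟩ := ⟨_, rfl⟩
  have hcoef : ∀ n, UnitAddTorus.mFourierCoeff mK n = hopK K n := by
    intro n; rw [hmK]; rfl
  have hO := (Pool.Agent.W918.LL.main d mK mK).1
  obtain ⟨C', hC'⟩ : ∃ C' : ℝ, C' = max C 1 := ⟨_, rfl⟩
  have hC'0 : 0 < C' := by rw [hC']; positivity
  have hD := (Pool.Agent.W792.LL.DiaP.main (Fin d → ℤ) (fun x => ((v x / C' : ℝ) : ℂ)) (by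
    intro x
    rw [Complex.norm_real, Real.norm_eq_abs, abs_div, abs_of_pos hC'0, div_le_one hC'0, hC']
    exact (hC x).trans (le_max_left _ _))).1
  obtain ⟨H, hHd⟩ : ∃ H : l2 (Fin d → ℤ) →L[ℂ] l2 (Fin d → ℤ),
      H = opr mK + (C' : ℂ) • dia (fun x => ((v x / C' : ℝ) : ℂ)) := ⟨_, rfl⟩
  have hH : ∀ (u : l2 (Fin d → ℤ)) (y : Fin d → ℤ),
      H u y = ∑' y', hopK K (y - y') * u y' + (v y : ℂ) * u y := by
    intro u y
    have h1 : H u y = opr mK u y + (C' : ℂ) * dia (fun x => ((v x / C' : ℝ) : ℂ)) u y := by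
      rw [hHd]; rfl
    rw [h1, (hO u y).2, hD u y]
    simp only [hcoef]
    congr 1
    have : (C' : ℂ) ≠ 0 := by exact_mod_cast hC'0.ne'
    push_cast
    field_simp
  have hker : ∀ x y : Fin d → ℤ, H (lp.single 2 y (1 : ℂ)) x
      = hopK K (x - y) + (v x : ℂ) * (lp.single 2 y (1 : ℂ) : l2 (Fin d → ℤ)) x := by
    intro x y
    rw [hH]
    congr 1
    rw [tsum_eq_single y]
    · rw [lp.single_apply_self, mul_one]
    · intro y' hy'
      rw [lp.single_apply_ne _ _ _ hy', mul_zero]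
  have hsa : IsSelfAdjoint H := by
    refine sa_of_kernel H fun x y => ?_
    rw [hker, hker, map_add, conj_coeff, neg_sub, map_mul, Complex.conj_ofReal]
    congr 1
    by_cases hxy : x = y
    · rw [hxy, lp.single_apply_self, map_one]
    · rw [lp.single_apply_ne _ _ _ hxy, lp.single_apply_ne _ _ _ (Ne.symm hxy), map_zero,
        mul_zero, mul_zero]
  obtain ⟨μ, hμ, hμ2⟩ := Pool.Agent.H792R3.exists_specMeas H hsa
    (lp.single 2 (0 : Fin d → ℤ) (1 : ℂ))
  refine ⟨μ, hμ, fun z hz => ?_⟩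
  obtain ⟨A, hA1, hA2, hA3, hrc, hqc⟩ := resolvent H hsa z hz
  have hw0 : (A (lp.single 2 (0 : Fin d → ℤ) (1 : ℂ))) 0 = ∫ E : ℝ, 1 / ((E : ℂ) - z) ∂μ := by
    obtain ⟨i1, j1⟩ := hμ2 _ hrc
    obtain ⟨i2, j2⟩ := hμ2 _ hqc
    have hint : Integrable (fun E : ℝ => (1 : ℂ) / ((E : ℂ) - z)) μ := by
      have := i1.ofReal (𝕜 := ℂ) |>.add ((i2.ofReal (𝕜 := ℂ)).mul_const Complex.I)
      refine this.congr (Filter.Eventually.of_forall fun E => ?_)
      exact Complex.re_add_im _
    have h1 := integral_re_add_im hint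
    rw [← h1, ← inner_sg, hA3]
    rw [add_apply, smul_apply, inner_add_right,
      inner_smul_right, ← j1, ← j2]
    rw [mul_comm Complex.I]
    rfl
  have hsol : ∀ w : l2 (Fin d → ℤ), (H - z • 1) w = lp.single 2 (0 : Fin d → ℤ) (1 : ℂ) ↔
      ∀ y, ∑' y', hopK K (y - y') * w y' + ((1 : ℝ) * v y : ℝ) * w y - z * w y
        = if y = 0 then 1 else 0 := by
    intro w
    have h1 : ∀ y, ((H - z • 1) w) y = H w y - z * w y := fun y => rfl
    have h2 : ∀ y : Fin d → ℤ, (lp.single 2 (0 : Fin d → ℤ) (1 : ℂ) : l2 (Fin d → ℤ)) y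
        = if y = 0 then 1 else 0 := by
      intro y
      by_cases hy : y = 0
      · rw [if_pos hy, hy, lp.single_apply_self]
      · rw [if_neg hy, lp.single_apply_ne _ _ _ hy]
    constructor
    · intro h y
      rw [← h2 y, ← h, h1, hH, one_mul]
    · intro h
      refine lp.ext (funext fun y => ?_)
      rw [h1, hH, h2, ← h y, one_mul]
  constructor
  · refine ⟨fun y => (A (lp.single 2 (0 : Fin d → ℤ) (1 : ℂ))) y, ?_, ?_⟩
    · have h1 := (lp.memℓp (A (lp.single 2 (0 : Fin d → ℤ) (1 : ℂ)))).summable (by norm_num)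
      simpa using h1
    · apply (hsol _).1
      have := congrArg (fun T : l2 (Fin d → ℤ) →L[ℂ] l2 (Fin d → ℤ) =>
        T (lp.single 2 (0 : Fin d → ℤ) (1 : ℂ))) hA1
      exact this
  · rintro w ⟨hw1, hw2⟩
    have hmem : Memℓp w 2 := by
      refine memℓp_gen ?_
      simpa using hw1
    obtain ⟨W, hW⟩ : ∃ W : l2 (Fin d → ℤ), ∀ y, W y = w y := ⟨⟨w, hmem⟩, fun _ => rfl⟩
    have h1 : (H - z • 1) W = lp.single 2 (0 : Fin d → ℤ) (1 : ℂ) := by
      apply (hsol W).2
      intro y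
      simp only [hW]
      exact hw2 y
    have h2 : W = A (lp.single 2 (0 : Fin d → ℤ) (1 : ℂ)) := by
      rw [← h1]
      have := congrArg (fun T : l2 (Fin d → ℤ) →L[ℂ] l2 (Fin d → ℤ) => T W) hA2
      exact this.symm
    rw [← hW, h2, hw0]

end

end Pool.Agent.W605.WA.SPM
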